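import Pool.Agent.Run7.h716.ZW.Defs

/-!
# Piece CAT of the project ZW (S02384): concatenation
-/

set_option autoImplicit false

namespace Run7.h646.ZW

open Polynomial Run7.h716.ZW

theorem t_CAT : S_CAT := by
  rintro L R a b c hc ⟨F, hF⟩ ⟨G, hG⟩
  obtain ⟨K₁, c₁, hc₁, hF₁⟩ := hF.rgt
  obtain ⟨K₂, c₂, hc₂, hG₂⟩ := hG.lft
  set M : ℕ := L.sup natDegree with hM
  have hMA : ∀ A ∈ L, A.natDegree ≤ M := fun A hA => Finset.le_sup (f := natDegree) hA
  set d : ℤ := K₁ - K₂ + R + M + 4 with hd
  set K' : ℤ := K₂ + d - 1 with hK'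
  set K : ℤ := K₁ + 1 with hK
  have hKK : K + R + M + 2 ≤ K' := by omega
  set s : ℝ := c₁ * c ^ d / c₂ with hs
  have hs0 : 0 < s := by positivity
  have hGs : ∀ k, k ≤ K' → s * G (k - d) = c₁ * c ^ k := by
    intro k hk
    rw [hG₂ (k - d) (by omega), hs]
    have : c ^ k = c ^ d * c ^ (k - d) := by
      rw [← zpow_add₀ hc.ne']; congr 1; ring
    rw [this]
    field_simp
  -- the concatenation
  let H : ℤ → ℝ := fun k => if k ≤ K' then F k else s * G (k - d)
  have hHF : ∀ k, k ≤ K' → H k = F k := fun k hk => if_pos hk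
  have hHG : ∀ k, K ≤ k → H k = s * G (k - d) := by
    intro k hk
    by_cases h : k ≤ K'
    · rw [hHF k h, hGs k h, hF₁ k (by omega)]
    · exact if_neg h
  have hH0 : ∀ k, 0 ≤ H k := by
    intro k
    by_cases h : k ≤ K'
    · rw [hHF k h]; exact hF.nonneg k
    · rw [hHG k (by omega)]; exact mul_nonneg hs0.le (hG.nonneg _)
  have hcx : ∀ x, a = some x → c ≤ x := by
    intro x hx
    have h1 := hF.up x hx (K₁ + 1)
    rw [hF₁ (K₁ + 1 + 1) (by omega), hF₁ (K₁ + 1) (by omega), zpow_add_one₀ hc.ne' (K₁ + 1)] at h1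
    have h2 : 0 < c₁ * c ^ (K₁ + 1) := by positivity
    have h3 : (c₁ * c ^ (K₁ + 1)) * c ≤ (c₁ * c ^ (K₁ + 1)) * x := by
      calc (c₁ * c ^ (K₁ + 1)) * c = c₁ * (c ^ (K₁ + 1) * c) := by ring
        _ ≤ x * (c₁ * c ^ (K₁ + 1)) := h1
        _ = _ := by ring
    exact le_of_mul_le_mul_left h3 h2
  have hxc : ∀ x, b = some x → x ≤ c := by
    intro x hx
    have h1 := hG.low x hx (K₂ - 2)
    have e : K₂ - 2 + 1 = K₂ - 1 := by ring
    rw [hG₂ (K₂ - 2) (by omega), hG₂ (K₂ - 2 + 1) (by omega), zpow_add_one₀ hc.ne' (K₂ - 2)] at h1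
    have h2 : 0 < c₂ * c ^ (K₂ - 2) := by positivity
    have h3 : (c₂ * c ^ (K₂ - 2)) * x ≤ (c₂ * c ^ (K₂ - 2)) * c := by
      calc (c₂ * c ^ (K₂ - 2)) * x = x * (c₂ * c ^ (K₂ - 2)) := by ring
        _ ≤ c₂ * (c ^ (K₂ - 2) * c) := h1
        _ = _ := by ring
    exact le_of_mul_le_mul_left h3 h2
  refine ⟨H, ⟨hH0, ⟨K, ?_⟩, ?_, ?_, ?_, ?_, ?_⟩⟩
  · rw [hHF K (by omega), hF₁ K (by omega)]
    positivity
  · -- left
    have h := hF.lft
    cases a with
    | none =>
      obtain ⟨K₀, h0⟩ := h
      refine ⟨min K₀ K', fun k hk => ?_⟩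
      rw [hHF k (by omega), h0 k (by omega)]
    | some x =>
      obtain ⟨K₀, c₀, hc₀, h0⟩ := h
      refine ⟨min K₀ K', c₀, hc₀, fun k hk => ?_⟩
      rw [hHF k (by omega), h0 k (by omega)]
  · -- right
    have h := hG.rgt
    cases b with
    | none =>
      obtain ⟨K₀, h0⟩ := h
      refine ⟨max (K₀ + d) K, fun k hk => ?_⟩
      rw [hHG k (by omega), h0 (k - d) (by omega), mul_zero]
    | some x =>
      obtain ⟨K₀, c₀, hc₀, h0⟩ := h
      rcases lt_trichotomy x 0 with hx | hx | hx
      · exfalso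
        have h1 := hG.nonneg (2 * |K₀| + 1)
        have h2 : K₀ < 2 * |K₀| + 1 := by
          have := le_abs_self K₀
          have := abs_nonneg K₀
          omega
        rw [h0 _ h2] at h1
        have h3 : x ^ (2 * |K₀| + 1) < 0 := Odd.zpow_neg ⟨|K₀|, rfl⟩ hx
        nlinarith
      · subst hx
        refine ⟨max (max (K₀ + d) K) (max 0 d), 1, one_pos, fun k hk => ?_⟩
        rw [hHG k (by omega), h0 (k - d) (by omega), zero_zpow _ (by omega), zero_zpow _ (by omega)]
        simp
      · refine ⟨max (K₀ + d) K, s * c₀ * x ^ (-d), by positivity, fun k hk => ?_⟩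
        rw [hHG k (by omega), h0 (k - d) (by omega)]
        have : x ^ (k - d) = x ^ (-d) * x ^ k := by
          rw [← zpow_add₀ hx.ne']; congr 1; ring
        rw [this]; ring
  · -- up
    intro x hx k
    by_cases h : k + 1 ≤ K'
    · rw [hHF _ h, hHF k (by omega)]
      exact hF.up x hx k
    · have h1 := hG.up c rfl (k - d)
      have e : k + 1 - d = k - d + 1 := by ring
      have h2 : H (k + 1) ≤ c * H k := by
        rw [hHG (k + 1) (by omega), hHG k (by omega), e]
        calc s * G (k - d + 1) ≤ s * (c * G (k - d)) := mul_le_mul_of_nonneg_left h1 hs0.le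
          _ = _ := by ring
      exact h2.trans (mul_le_mul_of_nonneg_right (hcx x hx) (hH0 k))
  · -- low
    intro x hx k
    by_cases h : k + 1 ≤ K'
    · have h1 := hF.low c rfl k
      rw [hHF (k + 1) h]
      have h2 : c * H k ≤ F (k + 1) := by
        rw [hHF k (by omega)]; exact h1
      exact (mul_le_mul_of_nonneg_right (hxc x hx) (hH0 k)).trans h2
    · have e : k + 1 - d = k - d + 1 := by ring
      rw [hHG (k + 1) (by omega), hHG k (by omega), e]
      calc x * (s * G (k - d)) = s * (x * G (k - d)) := by ring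
        _ ≤ _ := mul_le_mul_of_nonneg_left (hG.low x hx (k - d)) hs0.le
  · -- separation
    intro A hA
    have hdeg := hMA A hA
    have haF : ∀ k, k + M ≤ K' → ap A H k = ap A F k := by
      intro k hk
      rw [ap_apply, ap_apply]
      refine Finset.sum_congr rfl fun j hj => ?_
      rw [Finset.mem_range] at hj
      rw [hHF _ (by omega)]
    have haG : ∀ k, K ≤ k → ap A H k = s * ap A G (k - d) := by
      intro k hk
      rw [ap_apply, ap_apply, Finset.mul_sum]
      refine Finset.sum_congr rfl fun j hj => ?_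
      rw [hHG _ (by omega)]
      have e : k + (j : ℤ) - d = k - d + j := by ring
      rw [e]; ring
    intro k k' h1 h2
    by_cases hk : k + M ≤ K'
    · by_cases hk' : k' + M ≤ K'
      · rw [haF k hk] at h1
        rw [haF k' hk'] at h2
        exact hF.sep A hA k k' h1 h2
      · by_cases hkK : K ≤ k
        · rw [haG k hkK] at h1
          rw [haG k' (by omega)] at h2
          have := hG.sep A hA (k - d) (k' - d) (pos_of_mul_pos_right h1 hs0.le)
            (by
              by_contra hcon
              push Not at hcon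
              exact absurd h2 (not_lt.mpr (mul_nonneg hs0.le hcon)))
          have e : k - d - (k' - d) = k - k' := by ring
          rwa [e] at this
        · have : k' - k ≤ |k - k'| := by rw [abs_sub_comm]; exact le_abs_self _
          omega
    · by_cases hkK : K ≤ k'
      · rw [haG k (by omega)] at h1
        rw [haG k' hkK] at h2
        have := hG.sep A hA (k - d) (k' - d) (pos_of_mul_pos_right h1 hs0.le)
          (by
            by_contra hcon
            push Not at hcon
            exact absurd h2 (not_lt.mpr (mul_nonneg hs0.le hcon)))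
        have e : k - d - (k' - d) = k - k' := by ring
        rwa [e] at this
      · have : k - k' ≤ |k - k'| := le_abs_self _
        omega

end Run7.h646.ZW
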