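import Pool.Agent.Run7.h716.ZW.Defs

/-!
# Piece RAT of the project ZW (S02384): from real to integer functions
-/

set_option autoImplicit false

namespace Run7.h646.ZW

open Polynomial Run7.h716.ZW

/-- finitely many real numbers can be mapped to rational ones by a `ℚ`-linear map which keeps the
signs -/
lemma approx (S : Finset ℝ) : ∃ φ : ℝ →ₗ[ℚ] ℚ, ∀ v ∈ S, (0 < v → 0 < φ v) ∧ (v < 0 → φ v < 0) := by
  classical
  let B := Module.Basis.ofVectorSpace ℚ ℝ
  let Φ : ℝ → ((Module.Basis.ofVectorSpaceIndex ℚ ℝ) → ℝ) → ℝ :=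
    fun v y => (B.repr v).sum fun b q => (q : ℝ) * y b
  have hcont : ∀ v, Continuous (Φ v) := by
    intro v
    simp only [Φ, Finsupp.sum]
    exact continuous_finsetSum _ fun b _ => continuous_const.mul (continuous_apply b)
  have hval : ∀ v, Φ v (fun b => B b) = v := by
    intro v
    have h := B.linearCombination_repr v
    rw [Finsupp.linearCombination_apply] at h
    simpa only [Φ, Rat.smul_def] using h
  let U : Set ((Module.Basis.ofVectorSpaceIndex ℚ ℝ) → ℝ) :=
    ⋂ v ∈ S, ({y | 0 < v → 0 < Φ v y} ∩ {y | v < 0 → Φ v y < 0})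
  have hUo : IsOpen U := by
    apply isOpen_biInter_finset
    intro v _
    apply IsOpen.inter
    · by_cases hv : 0 < v
      · have : {y | 0 < v → 0 < Φ v y} = {y | 0 < Φ v y} := by ext y; simp [hv]
        rw [this]
        exact isOpen_lt continuous_const (hcont v)
      · have : {y | 0 < v → 0 < Φ v y} = Set.univ := by ext y; simp [hv]
        rw [this]
        exact isOpen_univ
    · by_cases hv : v < 0
      · have : {y | v < 0 → Φ v y < 0} = {y | Φ v y < 0} := by ext y; simp [hv]
        rw [this]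
        exact isOpen_lt (hcont v) continuous_const
      · have : {y | v < 0 → Φ v y < 0} = Set.univ := by ext y; simp [hv]
        rw [this]
        exact isOpen_univ
  have hne : U.Nonempty := by
    refine ⟨fun b => B b, ?_⟩
    simp only [U, Set.mem_iInter, Set.mem_inter_iff]
    intro v _
    refine ⟨fun h => ?_, fun h => ?_⟩
    · rw [hval v]; exact h
    · rw [hval v]; exact h
  have hdense : DenseRange (fun (q : (Module.Basis.ofVectorSpaceIndex ℚ ℝ) → ℚ) b => (q b : ℝ)) :=
    DenseRange.piMap fun _ => Rat.denseRange_cast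
  obtain ⟨q, hq⟩ := hdense.exists_mem_open hUo hne
  have hφ : ∀ v, ((B.constr ℚ q v : ℚ) : ℝ) = Φ v (fun b => (q b : ℝ)) := by
    intro v
    rw [Module.Basis.constr_apply]
    simp only [Φ, Finsupp.sum, smul_eq_mul]
    push_cast
    rfl
  refine ⟨B.constr ℚ q, fun v hv => ?_⟩
  simp only [U, Set.mem_iInter, Set.mem_inter_iff] at hq
  obtain ⟨h1, h2⟩ := hq v hv
  refine ⟨fun h => ?_, fun h => ?_⟩
  · have := h1 h
    rw [← hφ v] at this
    exact_mod_cast this
  · have := h2 h
    rw [← hφ v] at this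
    exact_mod_cast this

theorem t_RAT : S_RAT := by
  classical
  intro C F hF
  obtain ⟨k₀, hk₀⟩ : ∃ k, F k ≠ 0 := by
    by_contra h
    push Not at h
    exact hF (Finsupp.ext h)
  -- the values
  have hfin : ∀ c : ℤ →₀ ℤ, (Set.range (fun k => lfR c F k)).Finite := by
    intro c
    have hsupp : ∀ k, lfR c F k ≠ 0 → k ∈ (F.support ×ˢ c.support).image (fun p => p.1 - p.2) := by
      intro k hk
      unfold lfR Finsupp.sum at hk
      obtain ⟨j, hj, hj'⟩ := Finset.exists_ne_zero_of_sum_ne_zero hk
      rw [Finset.mem_image]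
      refine ⟨(k + j, j), ?_, by ring⟩
      rw [Finset.mem_product]
      refine ⟨?_, hj⟩
      rw [Finsupp.mem_support_iff]
      exact right_ne_zero_of_mul hj'
    apply Set.Finite.subset (s := ({0} : Set ℝ) ∪ (fun k => lfR c F k) ''
      (((F.support ×ˢ c.support).image (fun p => p.1 - p.2) : Finset ℤ) : Set ℤ))
    · exact (Set.finite_singleton _).union ((Finset.finite_toSet _).image _)
    · rintro _ ⟨k, rfl⟩
      by_cases h : lfR c F k = 0
      · left; exact h
      · right; exact ⟨k, hsupp k h, rfl⟩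
  let S : Finset ℝ := insert (F k₀) (C.biUnion fun c => (hfin c).toFinset)
  obtain ⟨φ, hφ⟩ := approx S
  -- clear denominators
  let N : ℕ := ∏ k ∈ F.support, (φ (F k)).den
  have hN : 0 < N := Finset.prod_pos fun k _ => (φ (F k)).pos
  have hint : ∀ k, ∃ n : ℤ, (n : ℚ) = N * φ (F k) := by
    intro k
    by_cases hk : k ∈ F.support
    · have hdvd : (φ (F k)).den ∣ N := Finset.dvd_prod_of_mem _ hk
      obtain ⟨m, hm⟩ := hdvd
      refine ⟨m * (φ (F k)).num, ?_⟩
      rw [hm]
      push_cast
      have h1 : ((φ (F k)).den : ℚ) * φ (F k) = (φ (F k)).num := by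
        rw [mul_comm]; exact Rat.mul_den_eq_num _
      calc (m : ℚ) * ((φ (F k)).num : ℚ) = m * (((φ (F k)).den : ℚ) * φ (F k)) := by rw [h1]
        _ = _ := by ring
    · refine ⟨0, ?_⟩
      rw [Finsupp.notMem_support_iff.mp hk, map_zero]
      simp
  choose g hg using hint
  have hN' : (0 : ℚ) < N := by exact_mod_cast hN
  have hg0 : ∀ k, g k ≠ 0 → k ∈ F.support := by
    intro k hk
    by_contra h
    apply hk
    have := hg k
    rw [Finsupp.notMem_support_iff.mp h, map_zero, mul_zero] at this
    exact_mod_cast this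
  let F' : ℤ →₀ ℤ := Finsupp.onFinset F.support g hg0
  have hF'g : ∀ k, F' k = g k := fun k => rfl
  refine ⟨F', ?_, ?_⟩
  · intro h
    have h1 : g k₀ = 0 := by rw [← hF'g, h]; rfl
    have h2 := hg k₀
    rw [h1] at h2
    have h3 : φ (F k₀) = 0 := by
      have : (N : ℚ) * φ (F k₀) = 0 := by rw [← h2]; simp
      rcases mul_eq_zero.mp this with h | h
      · exact absurd h hN'.ne'
      · exact h
    obtain ⟨p1, p2⟩ := hφ (F k₀) (Finset.mem_insert_self _ _)
    rcases lt_or_gt_of_ne hk₀ with h | h
    · exact absurd h3 (p2 h).ne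
    · exact absurd h3 (p1 h).ne'
  · intro c hc k
    have hlf : ((lf c F' k : ℤ) : ℚ) = N * φ (lfR c F k) := by
      unfold lf lfR Finsupp.sum
      rw [map_sum, Finset.mul_sum]
      push_cast
      refine Finset.sum_congr rfl fun j _ => ?_
      rw [hF'g, hg]
      have : φ ((c j : ℝ) * F (k + j)) = (c j : ℚ) * φ (F (k + j)) := by
        have h1 : ((c j : ℝ) * F (k + j)) = (c j : ℚ) • F (k + j) := by
          rw [Rat.smul_def]; push_cast; rfl
        rw [h1, map_smul, smul_eq_mul]
      rw [this]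
      ring
    have hmem : lfR c F k ∈ S := by
      apply Finset.mem_insert_of_mem
      rw [Finset.mem_biUnion]
      exact ⟨c, hc, by rw [Set.Finite.mem_toFinset]; exact ⟨k, rfl⟩⟩
    obtain ⟨p1, p2⟩ := hφ _ hmem
    refine ⟨fun h => ?_, fun h => ?_⟩
    · have h1 : (0 : ℚ) < N * φ (lfR c F k) := by rw [← hlf]; exact_mod_cast h
      have h2 : 0 < φ (lfR c F k) := pos_of_mul_pos_right h1 hN'.le
      by_contra hcon
      rcases lt_or_eq_of_le (not_lt.mp hcon) with h3 | h3
      · exact absurd h2 (not_lt.mpr (p2 h3).le)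
      · rw [h3, map_zero] at h2
        exact lt_irrefl _ h2
    · have h1 : N * φ (lfR c F k) < (0 : ℚ) := by rw [← hlf]; exact_mod_cast h
      have h2 : φ (lfR c F k) < 0 := by
        by_contra hcon
        exact absurd h1 (not_lt.mpr (mul_nonneg hN'.le (not_lt.mp hcon)))
      by_contra hcon
      rcases lt_or_eq_of_le (not_lt.mp hcon) with h3 | h3
      · exact absurd h2 (not_lt.mpr (p1 h3).le)
      · rw [← h3, map_zero] at h2
        exact lt_irrefl _ h2

end Run7.h646.ZW
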